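import Pool.Agent.Q174.TD.Dec

/-!
# Teaching sets, closure operators, and reduction of the rank
-/

set_option autoImplicit false

namespace Pool.Agent.Q174.TD

open Finset

variable {X Y : Type*}

lemma Dec.succ {K : Type*} [Field K] {F : X → Y → Bool} {k m : ℕ} {A : Set X} {B : Set Y}
    (h : Dec K F k m A B) : Dec K F k (m + 1) A B := by
  induction h with
  | rows m A B h => exact Dec.rows _ _ _ h
  | cols m A B h => exact Dec.cols _ _ _ h
  | row m A B φ hφ _ _ ih₁ ih₂ => exact Dec.row _ _ _ φ hφ ih₁ ih₂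
  | col m A B φ hφ _ _ ih₁ ih₂ => exact Dec.col _ _ _ φ hφ ih₁ ih₂

lemma Phi_le_pow (k r : ℕ) : Phi k r ≤ (r + 1) ^ k := by
  unfold Phi
  rw [add_pow]
  apply Finset.sum_le_sum
  intro i hi
  have h1 : i ≤ k := by
    have := mem_range.mp hi
    omega
  calc r.choose i ≤ r ^ i := Nat.choose_le_pow r i
    _ = r ^ i * 1 ^ (k - i) * 1 := by simp
    _ ≤ r ^ i * 1 ^ (k - i) * (k.choose i) := Nat.mul_le_mul_left _ (Nat.choose_pos h1)

lemma clog_Phi_le (k r : ℕ) : Nat.clog 2 (Phi k r) ≤ k * Nat.clog 2 (r + 1) := by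
  rw [Nat.clog_le_iff_le_pow (by norm_num)]
  calc Phi k r ≤ (r + 1) ^ k := Phi_le_pow k r
    _ ≤ (2 ^ Nat.clog 2 (r + 1)) ^ k :=
        Nat.pow_le_pow_left (Nat.le_pow_clog (by norm_num) _) k
    _ = 2 ^ (k * Nat.clog 2 (r + 1)) := by rw [← pow_mul, mul_comm]

variable (K : Type*) [Field K]

/-- mixed recursive teaching -/
theorem dec_of_teach [Finite X] [Finite Y] (F : X → Y → Bool) (k : ℕ)
    (h : ∀ (A : Set X) (B : Set Y), A.Nonempty → B.Nonempty →
      (∃ x ∈ A, ∃ T : Finset Y, T.card ≤ k ∧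
        ∀ x' ∈ A, (∀ y ∈ T, F x' y = F x y) → ∀ y ∈ B, F x' y = F x y) ∨
      (∃ y ∈ B, ∃ T : Finset X, T.card ≤ k ∧
        ∀ y' ∈ B, (∀ x ∈ T, F x y' = F x y) → ∀ x ∈ A, F x y' = F x y))
    (A : Set X) (B : Set Y) : Dec K F k 1 A B := by
  classical
  generalize hn : A.ncard + B.ncard = n
  induction n using Nat.strong_induction_on generalizing A B with
  | _ n ih =>
    rcases A.eq_empty_or_nonempty with rfl | hA
    · exact Dec.rows _ _ _ fun x hx => hx.elim
    rcases B.eq_empty_or_nonempty with rfl | hB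
    · exact Dec.cols _ _ _ fun x _ y hy => hy.elim
    rcases h A B hA hB with ⟨x₀, hx₀, T, hT, hT'⟩ | ⟨y₀, hy₀, T, hT, hT'⟩
    · refine Dec.row 0 A B (lit K F T (F x₀)) (W_mono K F hT (lit_mem_W K F T _)) ?_ ?_
      · refine Dec.rows _ _ _ ?_
        have key : ∀ x ∈ A ∩ {x | lit K F T (F x₀) x ≠ 0}, ∀ y ∈ B, F x y = F x₀ y := by
          rintro x ⟨hx, hx'⟩ y hy
          refine hT' x hx ?_ y hy
          simp only [Set.mem_setOf_eq, lit] at hx'
          by_contra hcon
          rw [if_neg hcon] at hx'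
          exact hx' rfl
        intro x hx x' hx' y hy
        rw [key x hx y hy, key x' hx' y hy]
      · apply ih _ _ _ _ rfl
        have h1 : (A ∩ {x | lit K F T (F x₀) x = 0}).ncard < A.ncard := by
          apply Set.ncard_lt_ncard _ (Set.toFinite _)
          refine ⟨Set.inter_subset_left, fun hsub => ?_⟩
          have := (hsub hx₀).2
          simp [lit] at this
        omega
    · refine Dec.col 0 A B (lit K (fun y x => F x y) T (fun x => F x y₀))
        (W_mono K (fun y x => F x y) hT (lit_mem_W K (fun y x => F x y) T _)) ?_ ?_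
      · refine Dec.cols _ _ _ ?_
        have key : ∀ y ∈ B ∩ {y | lit K (fun y x => F x y) T (fun x => F x y₀) y ≠ 0},
            ∀ x ∈ A, F x y = F x y₀ := by
          rintro y ⟨hy, hy'⟩ x hx
          refine hT' y hy ?_ x hx
          simp only [Set.mem_setOf_eq, lit] at hy'
          by_contra hcon
          rw [if_neg hcon] at hy'
          exact hy' rfl
        intro x hx y hy y' hy'
        rw [key y hy x hx, key y' hy' x hx]
      · apply ih _ _ _ _ rfl
        have h1 : (B ∩ {y | lit K (fun y x => F x y) T (fun x => F x y₀) y = 0}).ncard <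
            B.ncard := by
          apply Set.ncard_lt_ncard _ (Set.toFinite _)
          refine ⟨Set.inter_subset_left, fun hsub => ?_⟩
          have := (hsub hy₀).2
          simp [lit] at this
        omega

/-- the number of distinct rows under recursive teaching -/
theorem rows_le [Fintype X] [Fintype Y] (F : X → Y → Bool) (k : ℕ)
    (h : ∀ A : Set X, A.Nonempty → ∃ x ∈ A, ∃ T : Finset Y, T.card ≤ k ∧
        ∀ x' ∈ A, (∀ y ∈ T, F x' y = F x y) → F x' = F x) :
    (Set.range F).ncard ≤ Phi k (rk K F) := by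
  classical
  have key : ∀ (n : ℕ) (A : Set X), A.ncard = n → (F '' A).ncard ≤ dimA K F k A := by
    intro n
    induction n using Nat.strong_induction_on with
    | _ n ih =>
      intro A hn
      rcases A.eq_empty_or_nonempty with rfl | hA
      · simp
      obtain ⟨x₀, hx₀, T, hT, hT'⟩ := h A hA
      set A' := A ∩ {x | lit K F T (F x₀) x = 0} with hA'
      have hlt : A'.ncard < A.ncard := by
        apply Set.ncard_lt_ncard _ (Set.toFinite _)
        refine ⟨Set.inter_subset_left, fun hsub => ?_⟩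
        have := (hsub hx₀).2
        simp [lit] at this
      have h1 := ih _ (by omega) A' rfl
      have h2 : dimA K F k A' + 1 ≤ dimA K F k A :=
        dimA_step K F k Set.inter_subset_left (W_mono K F hT (lit_mem_W K F T (F x₀)))
          (fun x hx => hx.2) ⟨x₀, hx₀, by simp [lit]⟩
      have h3 : F '' A ⊆ insert (F x₀) (F '' A') := by
        rintro _ ⟨x, hx, rfl⟩
        by_cases hx' : ∀ y ∈ T, F x y = F x₀ y
        · exact Or.inl (hT' x hx hx')
        · exact Or.inr ⟨x, ⟨hx, by simp only [Set.mem_setOf_eq, lit, if_neg hx']⟩, rfl⟩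
      have h4 := (Set.ncard_le_ncard h3 (Set.toFinite _)).trans (Set.ncard_insert_le _ _)
      omega
  rw [← Set.image_univ]
  exact (key _ Set.univ rfl).trans (dimA_le K F k Set.univ)

/-- rows which are closures of at most `k` elements can be taught -/
theorem teach_of_closure [Finite X] [Finite Y] (F : X → Y → Bool) (k : ℕ)
    (c : Set Y → Set Y) (hc1 : ∀ S, S ⊆ c S) (hc2 : ∀ S S', S ⊆ c S' → c S ⊆ c S')
    (h : ∀ x, ∃ T : Finset Y, T.card ≤ k ∧ {y | F x y = true} = c T)
    (A : Set X) (hA : A.Nonempty) : ∃ x ∈ A, ∃ T : Finset Y, T.card ≤ k ∧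
        ∀ x' ∈ A, (∀ y ∈ T, F x' y = F x y) → F x' = F x := by
  obtain ⟨x₀, hx₀, hmax⟩ := Set.exists_max_image A (fun x => {y | F x y = true}.ncard)
    (Set.toFinite A) hA
  obtain ⟨T, hT, hc⟩ := h x₀
  refine ⟨x₀, hx₀, T, hT, fun x hx hxT => ?_⟩
  have h1 : ∀ y ∈ T, F x₀ y = true := by
    intro y hy
    have : y ∈ {y | F x₀ y = true} := by
      rw [hc]
      exact hc1 _ hy
    exact this
  obtain ⟨T', -, hc'⟩ := h x
  have h2 : {y | F x₀ y = true} ⊆ {y | F x y = true} := by
    rw [hc, hc']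
    apply hc2
    intro y hy
    rw [← hc']
    show F x y = true
    rw [hxT y hy]
    exact h1 y hy
  have h3 : {y | F x₀ y = true} = {y | F x y = true} :=
    Set.eq_of_subset_of_ncard_le h2 (hmax x hx) (Set.toFinite _)
  funext y
  have h4 : F x₀ y = true ↔ F x y = true := by
    have := Set.ext_iff.mp h3 y
    exact this
  cases h5 : F x y <;> cases h6 : F x₀ y <;> simp_all

/-- the rank over `K` of `F` with all values outside `A × B` replaced by zero -/
noncomputable def rkOn [Fintype Y] (F : X → Y → Bool) (A : Set X) (B : Set Y) : ℕ := by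
  classical
  exact (Matrix.of fun (x : X) (y : Y) => if x ∈ A ∧ y ∈ B ∧ F x y = true then (1 : K) else 0).rank

lemma rkOn_mono [Fintype X] [Fintype Y] (F : X → Y → Bool) {A A' : Set X} {B B' : Set Y}
    (hA : A' ⊆ A) (hB : B' ⊆ B) : rkOn K F A' B' ≤ rkOn K F A B := by
  classical
  unfold rkOn
  have e : (Matrix.of fun (x : X) (y : Y) =>
      if x ∈ A' ∧ y ∈ B' ∧ F x y = true then (1 : K) else 0) =
      Matrix.diagonal (fun x => if x ∈ A' then (1 : K) else 0) *
      ((Matrix.of fun (x : X) (y : Y) => if x ∈ A ∧ y ∈ B ∧ F x y = true then (1 : K) else 0) *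
      Matrix.diagonal (fun y => if y ∈ B' then (1 : K) else 0)) := by
    ext x y
    rw [Matrix.diagonal_mul, Matrix.mul_diagonal]
    simp only [Matrix.of_apply]
    by_cases h1 : x ∈ A'
    · by_cases h2 : y ∈ B'
      · simp [h1, h2, hA h1, hB h2]
      · simp [h2]
    · simp [h1]
  rw [e]
  exact (Matrix.rank_mul_le_right _ _).trans (Matrix.rank_mul_le_left _ _)

lemma rkOn_univ [Fintype Y] (F : X → Y → Bool) : rkOn K F Set.univ Set.univ = rk K F := by
  classical
  unfold rkOn rk
  congr 1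
  ext x y
  simp

/-- rank at most one -/
lemma minor [Fintype Y] (F : X → Y → Bool) {A : Set X} {B : Set Y} (h : rkOn K F A B ≤ 1)
    {x₀ x : X} {y₀ y : Y} (hx₀ : x₀ ∈ A) (hx : x ∈ A) (hy₀ : y₀ ∈ B) (hy : y ∈ B)
    (h0 : F x₀ y₀ = true) : F x y = (F x₀ y && F x y₀) := by
  classical
  unfold rkOn at h
  set M := (Matrix.of fun (x : X) (y : Y) =>
    if x ∈ A ∧ y ∈ B ∧ F x y = true then (1 : K) else 0) with hM
  have h1 : (M.submatrix ![x₀, x] ![y₀, y]).rank ≤ 1 :=
    (Matrix.rank_submatrix_le _ _ _).trans h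
  have h2 : (M.submatrix ![x₀, x] ![y₀, y]).det = 0 := by
    by_contra hne
    have := Matrix.rank_of_det_ne_zero hne
    rw [Fintype.card_fin] at this
    omega
  rw [Matrix.det_fin_two] at h2
  simp only [hM, Matrix.submatrix_apply, Matrix.of_apply, Matrix.cons_val_zero,
    Matrix.cons_val_one, hx₀, hx, hy₀, hy, h0, true_and, if_true] at h2
  cases h3 : F x y <;> cases h4 : F x₀ y <;> cases h5 : F x y₀ <;> simp [h3, h4, h5] at h2 ⊢

/-- **Reduction of the rank without density.** -/
theorem dec_of_halving [Fintype X] [Fintype Y] (F : X → Y → Bool) (k : ℕ) (hk : 1 ≤ k)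
    (h : ∀ (A : Set X) (B : Set Y), 2 ≤ rkOn K F A B →
      (∃ φ : X → K, Pol K F k φ ∧ (∃ x ∈ A, φ x ≠ 0) ∧
        2 * rkOn K F (A ∩ {x | φ x ≠ 0}) B ≤ rkOn K F A B) ∨
      (∃ ψ : Y → K, Pol K (fun y x => F x y) k ψ ∧ (∃ y ∈ B, ψ y ≠ 0) ∧
        2 * rkOn K F A (B ∩ {y | ψ y ≠ 0}) ≤ rkOn K F A B))
    (n : ℕ) (A : Set X) (B : Set Y) (hn : rkOn K F A B ≤ 2 ^ n) : Dec K F k (n + 1) A B := by
  classical
  induction n generalizing A B with
  | zero =>
    by_cases h1 : ∃ x₀ ∈ A, ∃ y₀ ∈ B, F x₀ y₀ = true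
    · obtain ⟨x₀, hx₀, y₀, hy₀, h0⟩ := h1
      have hm := fun (x : X) (hx : x ∈ A) (y : Y) (hy : y ∈ B) =>
        minor K F (by simpa using hn) hx₀ hx hy₀ hy h0
      refine Dec.row 0 A B (mon K F {y₀}) (mon_mem_W K F (by simpa using hk)) ?_ ?_
      · refine Dec.rows _ _ _ ?_
        rintro x ⟨hx, hx'⟩ x' ⟨hx1, hx1'⟩ y hy
        simp only [mon, prod_singleton, Set.mem_setOf_eq, ne_eq, ite_eq_right_iff, one_ne_zero,
          imp_false, not_not] at hx' hx1'
        rw [hm x hx y hy, hm x' hx1 y hy, hx', hx1']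
      · refine Dec.rows _ _ _ ?_
        rintro x ⟨hx, hx'⟩ x' ⟨hx1, hx1'⟩ y hy
        simp only [mon, prod_singleton, Set.mem_setOf_eq, ite_eq_right_iff, one_ne_zero,
          imp_false, Bool.not_eq_true] at hx' hx1'
        rw [hm x hx y hy, hm x' hx1 y hy, hx', hx1']
    · push Not at h1
      refine Dec.rows _ _ _ fun x hx x' hx' y hy => ?_
      have e1 := h1 x hx y hy
      have e2 := h1 x' hx' y hy
      simp only [Bool.not_eq_true] at e1 e2
      rw [e1, e2]
  | succ n ih =>
    generalize hs : A.ncard + B.ncard = s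
    induction s using Nat.strong_induction_on generalizing A B with
    | _ s ihs =>
      by_cases hle : rkOn K F A B ≤ 2 ^ n
      · exact (ih A B hle).succ
      have h2 : 2 ≤ rkOn K F A B := by
        have : 1 ≤ 2 ^ n := Nat.one_le_two_pow
        omega
      rcases h A B h2 with ⟨φ, hφ, ⟨x₀, hx₀, h0⟩, hr⟩ | ⟨ψ, hψ, ⟨y₀, hy₀, h0⟩, hr⟩
      · refine Dec.row _ A B φ hφ (ih _ _ ?_) ?_
        · rw [pow_succ] at hn
          omega
        · refine ihs _ ?_ _ _ ((rkOn_mono K F Set.inter_subset_left le_rfl).trans hn) rfl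
          have h1 : (A ∩ {x | φ x = 0}).ncard < A.ncard := by
            apply Set.ncard_lt_ncard _ (Set.toFinite _)
            exact ⟨Set.inter_subset_left, fun hsub => h0 (hsub hx₀).2⟩
          omega
      · refine Dec.col _ A B ψ hψ (ih _ _ ?_) ?_
        · rw [pow_succ] at hn
          omega
        · refine ihs _ ?_ _ _ ((rkOn_mono K F le_rfl Set.inter_subset_left).trans hn) rfl
          have h1 : (B ∩ {x | ψ x = 0}).ncard < B.ncard := by
            apply Set.ncard_lt_ncard _ (Set.toFinite _)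
            exact ⟨Set.inter_subset_left, fun hsub => h0 (hsub hy₀).2⟩
          omega

end Pool.Agent.Q174.TD
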