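import Mathlib

/-!
# Polynomials of degree at most `k` in the columns of a 0/1 matrix

Let `F : X → Y → Bool` and let `r` be the rank of the 0/1 matrix over a field `K`. The functions on
`X` which are polynomials of degree at most `k` in the columns of the matrix form a space of
dimension at most `∑ i ≤ k, (r choose i)`.
-/

set_option autoImplicit false

namespace Pool.Agent.Q174.TD

open Finset

variable {X Y : Type*}

/-- the column `y` of the matrix as a function on `X` with values in `K` -/
def col (K : Type*) [Field K] (F : X → Y → Bool) (y : Y) : X → K := fun x => if F x y then 1 else 0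

/-- the product of the columns in `T` -/
def mon (K : Type*) [Field K] (F : X → Y → Bool) (T : Finset Y) : X → K :=
  fun x => ∏ y ∈ T, (if F x y then (1 : K) else 0)

/-- polynomials of degree at most `k` in the columns -/
def W (K : Type*) [Field K] (F : X → Y → Bool) (k : ℕ) : Submodule K (X → K) :=
  Submodule.span K {f | ∃ T : Finset Y, T.card ≤ k ∧ f = mon K F T}

/-- `∑ i ≤ k, (r choose i)` -/
def Phi (k r : ℕ) : ℕ := ∑ i ∈ range (k + 1), r.choose i

lemma Phi_mono (k : ℕ) {r s : ℕ} (h : r ≤ s) : Phi k r ≤ Phi k s :=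
  Finset.sum_le_sum fun i _ => Nat.choose_le_choose i h

lemma one_le_Phi (k r : ℕ) : 1 ≤ Phi k r := by
  unfold Phi
  rw [Finset.sum_range_succ']
  simp

variable (K : Type*) [Field K] (F : X → Y → Bool)

lemma mon_empty : mon K F ∅ = 1 := by
  funext x; simp [mon]

lemma col_mul_self (y : Y) : col K F y * col K F y = col K F y := by
  funext x
  simp only [col, Pi.mul_apply]
  split_ifs <;> simp

lemma mon_mul_col [DecidableEq Y] (T : Finset Y) (y : Y) :
    mon K F T * col K F y = mon K F (insert y T) := by
  funext x
  by_cases h : y ∈ T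
  · rw [insert_eq_self.mpr h]
    simp only [mon, col, Pi.mul_apply]
    rw [← Finset.mul_prod_erase T _ h]
    split_ifs <;> simp
  · simp only [mon, col, Pi.mul_apply]
    rw [Finset.prod_insert h, mul_comm]

lemma mon_mem_W {k : ℕ} {T : Finset Y} (h : T.card ≤ k) : mon K F T ∈ W K F k :=
  Submodule.subset_span ⟨T, h, rfl⟩

lemma one_mem_W (k : ℕ) : (1 : X → K) ∈ W K F k := by
  rw [← mon_empty K F]
  exact mon_mem_W K F (by simp)

lemma W_mono {k l : ℕ} (h : k ≤ l) : W K F k ≤ W K F l := by
  apply Submodule.span_mono
  rintro f ⟨T, hT, rfl⟩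
  exact ⟨T, hT.trans h, rfl⟩

lemma mul_col_mem_W {k : ℕ} {f : X → K} (hf : f ∈ W K F k) (y : Y) :
    f * col K F y ∈ W K F (k + 1) := by
  classical
  induction hf using Submodule.span_induction with
  | mem f hf =>
    obtain ⟨T, hT, rfl⟩ := hf
    rw [mon_mul_col]
    exact mon_mem_W K F ((card_insert_le _ _).trans (by omega))
  | zero => rw [zero_mul]; exact zero_mem _
  | add f g _ _ hf hg => rw [add_mul]; exact add_mem hf hg
  | smul c f _ hf => rw [smul_mul_assoc]; exact Submodule.smul_mem _ _ hf

/-- the indicator function of `{x | ∀ y ∈ T, F x y = σ y}` -/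
def lit (T : Finset Y) (σ : Y → Bool) : X → K :=
  fun x => if ∀ y ∈ T, F x y = σ y then 1 else 0

lemma lit_mem_W (T : Finset Y) (σ : Y → Bool) : lit K F T σ ∈ W K F T.card := by
  classical
  induction T using Finset.induction_on with
  | empty =>
    have : lit K F ∅ σ = 1 := by funext x; simp [lit]
    rw [this]
    exact one_mem_W K F _
  | insert y T hy ih =>
    rw [card_insert_of_notMem hy]
    have : lit K F (insert y T) σ =
        if σ y then lit K F T σ * col K F y else lit K F T σ - lit K F T σ * col K F y := by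
      funext x
      cases hσ : σ y
      · simp only [lit, col, mem_insert, forall_eq_or_imp, hσ, Pi.sub_apply, Pi.mul_apply,
          Bool.false_eq_true, if_false]
        cases hF : F x y <;> simp
      · simp only [lit, col, mem_insert, forall_eq_or_imp, hσ, Pi.mul_apply, if_true]
        cases hF : F x y <;> simp
    rw [this]
    split_ifs
    · exact mul_col_mem_W K F ih y
    · exact sub_mem (W_mono K F (Nat.le_succ _) ih) (mul_col_mem_W K F ih y)

variable [Fintype X] [Fintype Y]

/-- a basis of the column space, consisting of columns -/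
lemma exists_basis : ∃ B : Finset Y,
    B.card ≤ (Matrix.of fun (x : X) (y : Y) => if F x y then (1 : K) else 0).rank ∧
    ∀ y, col K F y ∈ Submodule.span K (col K F '' (B : Set Y)) := by
  classical
  obtain ⟨b, hb, hspan, hli⟩ := exists_linearIndependent K (Set.range (col K F))
  have hfin : b.Finite := (Set.finite_range _).subset hb
  have hch : ∀ v : b, ∃ y, col K F y = v.1 := fun v => hb v.2
  choose g hg using hch
  haveI := hfin.fintype
  refine ⟨Finset.univ.image g, ?_, ?_⟩
  · refine card_image_le.trans ?_
    rw [card_univ]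
    have h1 : (Matrix.of fun (x : X) (y : Y) => if F x y then (1 : K) else 0).rank =
        Module.finrank K (Submodule.span K (Set.range (col K F))) := by
      rw [Matrix.rank_eq_finrank_span_cols]
      rfl
    rw [h1, ← hspan]
    exact (finrank_span_eq_card (b := ((↑) : b → X → K)) hli).symm.le.trans
      (by rw [Subtype.range_coe])
  · intro y
    have h1 : col K F y ∈ Submodule.span K b := by
      rw [hspan]
      exact Submodule.subset_span ⟨y, rfl⟩
    refine Submodule.span_mono ?_ h1
    intro v hv
    refine ⟨g ⟨v, hv⟩, ?_, hg ⟨v, hv⟩⟩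
    simp

lemma W_le_of_basis (B : Finset Y)
    (hB : ∀ y, col K F y ∈ Submodule.span K (col K F '' (B : Set Y))) (k : ℕ) :
    W K F k ≤ Submodule.span K {f | ∃ T : Finset Y, T ⊆ B ∧ T.card ≤ k ∧ f = mon K F T} := by
  classical
  set V : ℕ → Submodule K (X → K) := fun k =>
    Submodule.span K {f | ∃ T : Finset Y, T ⊆ B ∧ T.card ≤ k ∧ f = mon K F T} with hV
  have hmono : ∀ k, V k ≤ V (k + 1) := by
    intro k
    apply Submodule.span_mono
    rintro f ⟨T, hTB, hT, rfl⟩
    exact ⟨T, hTB, hT.trans (Nat.le_succ _), rfl⟩
  have hmul : ∀ k, ∀ f ∈ V k, ∀ g ∈ Submodule.span K (col K F '' (B : Set Y)),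
      f * g ∈ V (k + 1) := by
    intro k f hf g hg
    induction hg using Submodule.span_induction with
    | mem g hg =>
      obtain ⟨y, hy, rfl⟩ := hg
      induction hf using Submodule.span_induction with
      | mem f hf =>
        obtain ⟨T, hTB, hT, rfl⟩ := hf
        rw [mon_mul_col]
        exact Submodule.subset_span ⟨insert y T, insert_subset hy hTB,
          (card_insert_le _ _).trans (by omega), rfl⟩
      | zero => rw [zero_mul]; exact zero_mem _
      | add f g _ _ hf hg => rw [add_mul]; exact add_mem hf hg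
      | smul c f _ hf => rw [smul_mul_assoc]; exact Submodule.smul_mem _ _ hf
    | zero => rw [mul_zero]; exact zero_mem _
    | add g h _ _ hg hh => rw [mul_add]; exact add_mem hg hh
    | smul c g _ hg => rw [mul_smul_comm]; exact Submodule.smul_mem _ _ hg
  have key : ∀ (T : Finset Y), mon K F T ∈ V T.card := by
    intro T
    induction T using Finset.induction_on with
    | empty => exact Submodule.subset_span ⟨∅, empty_subset _, le_rfl, rfl⟩
    | insert y T hy ih =>
      rw [card_insert_of_notMem hy, ← mon_mul_col]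
      exact hmul _ _ ih _ (hB y)
  have hmono' : ∀ {k l : ℕ}, k ≤ l → V k ≤ V l := fun h => monotone_nat_of_le_succ hmono h
  apply Submodule.span_le.mpr
  rintro f ⟨T, hT, rfl⟩
  exact hmono' hT (key T)

/-- **Dimension bound.** -/
theorem finrank_W_le (k : ℕ) : Module.finrank K (W K F k) ≤
    Phi k (Matrix.of fun (x : X) (y : Y) => if F x y then (1 : K) else 0).rank := by
  classical
  obtain ⟨B, hBc, hB⟩ := exists_basis K F
  refine le_trans (Submodule.finrank_mono (W_le_of_basis K F B hB k)) ?_
  refine le_trans ?_ (Phi_mono k hBc)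
  have h1 : {f : X → K | ∃ T : Finset Y, T ⊆ B ∧ T.card ≤ k ∧ f = mon K F T} =
      (((B.powerset.filter fun T => T.card ≤ k).image (mon K F) : Finset (X → K)) :
        Set (X → K)) := by
    ext f
    simp only [Set.mem_setOf_eq, coe_image, coe_filter, mem_powerset, Set.mem_image]
    constructor
    · rintro ⟨T, h1, h2, rfl⟩
      exact ⟨T, ⟨h1, h2⟩, rfl⟩
    · rintro ⟨T, ⟨h1, h2⟩, rfl⟩
      exact ⟨T, h1, h2, rfl⟩
  rw [h1]
  refine (finrank_span_finset_le_card _).trans (card_image_le.trans ?_)
  have h2 : (B.powerset.filter fun T => T.card ≤ k) =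
      (range (k + 1)).biUnion fun i => B.powersetCard i := by
    ext T
    simp only [mem_filter, mem_powerset, mem_biUnion, mem_range, mem_powersetCard]
    constructor
    · rintro ⟨h1, h2⟩
      exact ⟨T.card, by omega, h1, rfl⟩
    · rintro ⟨i, hi, h1, h2⟩
      exact ⟨h1, by omega⟩
  rw [h2]
  refine card_biUnion_le.trans ?_
  unfold Phi
  exact Finset.sum_le_sum fun i _ => by rw [card_powersetCard]

omit [Fintype Y] in
/-- restriction to `A`: the functions are set to zero outside `A` -/
noncomputable def restr (A : Set X) : (X → K) →ₗ[K] (X → K) where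
  toFun f := A.indicator f
  map_add' f g := by
    funext x
    by_cases h : x ∈ A <;> simp [h]
  map_smul' c f := by
    funext x
    by_cases h : x ∈ A <;> simp [h]

/-- the dimension of the space of restrictions to `A` of the polynomials of degree at most `k` -/
noncomputable def dimA (k : ℕ) (A : Set X) : ℕ :=
  Module.finrank K ((W K F k).map (restr K A))

lemma dimA_le (k : ℕ) (A : Set X) : dimA K F k A ≤
    Phi k (Matrix.of fun (x : X) (y : Y) => if F x y then (1 : K) else 0).rank :=
  (Submodule.finrank_map_le _ _).trans (finrank_W_le K F k)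

omit [Fintype Y] in
lemma one_le_dimA (k : ℕ) {A : Set X} (hA : A.Nonempty) : 1 ≤ dimA K F k A := by
  obtain ⟨x, hx⟩ := hA
  unfold dimA
  rw [Nat.one_le_iff_ne_zero]
  intro h
  rw [Submodule.finrank_eq_zero] at h
  have h1 : restr K A 1 ∈ (W K F k).map (restr K A) := ⟨1, one_mem_W K F k, rfl⟩
  rw [h, Submodule.mem_bot] at h1
  have h2 := congrFun h1 x
  simp [restr, hx] at h2

omit [Fintype Y] in
lemma dimA_step (k : ℕ) {A A' : Set X} (hAA' : A' ⊆ A) {φ : X → K} (hφ : φ ∈ W K F k)
    (h0 : ∀ x ∈ A', φ x = 0) (h1 : ∃ x ∈ A, φ x ≠ 0) :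
    dimA K F k A' + 1 ≤ dimA K F k A := by
  unfold dimA
  set U := (W K F k).map (restr K A) with hU
  have hcomp : (W K F k).map (restr K A') = U.map (restr K A') := by
    rw [hU, ← Submodule.map_comp]
    congr 1
    ext f x
    simp only [restr, LinearMap.coe_mk, AddHom.coe_mk, LinearMap.comp_apply]
    by_cases h : x ∈ A'
    · simp [h, hAA' h]
    · simp [h]
  rw [hcomp]
  have h2 := LinearMap.finrank_range_add_finrank_ker ((restr K A').domRestrict U)
  have h3 : LinearMap.range ((restr K A').domRestrict U) = U.map (restr K A') := by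
    rw [LinearMap.range_domRestrict]
  rw [h3] at h2
  have h4 : 1 ≤ Module.finrank K (LinearMap.ker ((restr K A').domRestrict U)) := by
    rw [Nat.one_le_iff_ne_zero]
    intro h
    rw [Submodule.finrank_eq_zero] at h
    obtain ⟨x, hxA, hx⟩ := h1
    have hmem : restr K A φ ∈ U := ⟨φ, hφ, rfl⟩
    have h5 : (⟨restr K A φ, hmem⟩ : U) ∈ LinearMap.ker ((restr K A').domRestrict U) := by
      rw [LinearMap.mem_ker]
      funext z
      simp only [LinearMap.domRestrict_apply, restr, LinearMap.coe_mk, AddHom.coe_mk,
        Pi.zero_apply]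
      by_cases hz : z ∈ A'
      · simp [hz, hAA' hz, h0 z hz]
      · simp [hz]
    rw [h, Submodule.mem_bot] at h5
    have h6 := congrFun (congrArg Subtype.val h5) x
    simp only [restr, LinearMap.coe_mk, AddHom.coe_mk, ZeroMemClass.coe_zero,
      Pi.zero_apply] at h6
    rw [Set.indicator_of_mem hxA] at h6
    exact hx h6
  omega

end Pool.Agent.Q174.TD
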