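import Mathlib

/-!
# Deterministic two-party protocols on rectangles
-/

set_option autoImplicit false

namespace Pool.Agent.Q174.TD

variable {X Y : Type*}

/-- `F` restricted to `A × B` has a protocol tree of depth `c` -/
inductive Prot (F : X → Y → Bool) : ℕ → Set X → Set Y → Prop
  | const (c : ℕ) (A : Set X) (B : Set Y) (b : Bool) (h : ∀ x ∈ A, ∀ y ∈ B, F x y = b) :
      Prot F c A B
  | alice (c : ℕ) (A : Set X) (B : Set Y) (S : Set X) :
      Prot F c (A ∩ S) B → Prot F c (A \ S) B → Prot F (c + 1) A B
  | bob (c : ℕ) (A : Set X) (B : Set Y) (S : Set Y) :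
      Prot F c A (B ∩ S) → Prot F c A (B \ S) → Prot F (c + 1) A B

/-- one step of a protocol -/
def stp (owner : List Bool → Bool) (a : List Bool → X → Bool) (b : List Bool → Y → Bool)
    (x : X) (y : Y) (t : List Bool) : List Bool := t ++ [if owner t then a t x else b t y]

lemma iter_length (owner : List Bool → Bool) (a : List Bool → X → Bool) (b : List Bool → Y → Bool)
    (x : X) (y : Y) (n : ℕ) (t : List Bool) :
    (Nat.iterate (stp owner a b x y) n t).length = t.length + n := by
  induction n generalizing t with
  | zero => rfl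
  | succ n ih =>
    rw [Function.iterate_succ_apply, ih]
    simp [stp]
    omega

/-- the protocol which asks a first bit and goes on with one of two protocols -/
lemma iter_cons (owner : List Bool → Bool) (a : List Bool → X → Bool) (b : List Bool → Y → Bool)
    (o' : List Bool → Bool) (a' : List Bool → X → Bool) (b' : List Bool → Y → Bool)
    (h : Bool) (ho : ∀ t, owner (h :: t) = o' t) (ha : ∀ t, a (h :: t) = a' t)
    (hb : ∀ t, b (h :: t) = b' t) (x : X) (y : Y) (n : ℕ) (t : List Bool) :
    Nat.iterate (stp owner a b x y) n (h :: t) = h :: Nat.iterate (stp o' a' b' x y) n t := by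
  induction n generalizing t with
  | zero => rfl
  | succ n ih =>
    rw [Function.iterate_succ_apply, Function.iterate_succ_apply]
    have : stp owner a b x y (h :: t) = h :: stp o' a' b' x y t := by
      simp [stp, ho, ha, hb]
    rw [this, ih]

open Classical in
theorem Prot.protocol {F : X → Y → Bool} {c : ℕ} {A : Set X} {B : Set Y} (h : Prot F c A B) :
    ∃ (owner : List Bool → Bool) (a : List Bool → X → Bool) (b : List Bool → Y → Bool)
      (out : List Bool → Bool), ∀ x ∈ A, ∀ y ∈ B,
        out (Nat.iterate (stp owner a b x y) c []) = F x y := by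
  induction h with
  | const c A B b h =>
    exact ⟨fun _ => true, fun _ _ => true, fun _ _ => true, fun _ => b,
      fun x hx y hy => (h x hx y hy).symm⟩
  | alice c A B S _ _ ih₁ ih₂ =>
    obtain ⟨o₁, a₁, b₁, out₁, h₁⟩ := ih₁
    obtain ⟨o₂, a₂, b₂, out₂, h₂⟩ := ih₂
    refine ⟨fun t => match t with | [] => true | true :: t => o₁ t | false :: t => o₂ t,
      fun t x => match t with | [] => decide (x ∈ S) | true :: t => a₁ t x | false :: t => a₂ t x,
      fun t y => match t with | [] => true | true :: t => b₁ t y | false :: t => b₂ t y,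
      fun t => match t with | [] => true | true :: t => out₁ t | false :: t => out₂ t, ?_⟩
    intro x hx y hy
    rw [Function.iterate_succ_apply]
    by_cases hS : x ∈ S
    · have e1 : stp (fun t => match t with | [] => true | true :: t => o₁ t | false :: t => o₂ t)
        (fun t x => match t with
          | [] => decide (x ∈ S) | true :: t => a₁ t x | false :: t => a₂ t x)
        (fun t y => match t with | [] => true | true :: t => b₁ t y | false :: t => b₂ t y)
        x y [] = [true] := by simp [stp, hS]
      rw [e1, iter_cons _ _ _ o₁ a₁ b₁ true (fun _ => rfl) (fun _ => rfl) (fun _ => rfl)]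
      exact h₁ x ⟨hx, hS⟩ y hy
    · have e1 : stp (fun t => match t with | [] => true | true :: t => o₁ t | false :: t => o₂ t)
        (fun t x => match t with
          | [] => decide (x ∈ S) | true :: t => a₁ t x | false :: t => a₂ t x)
        (fun t y => match t with | [] => true | true :: t => b₁ t y | false :: t => b₂ t y)
        x y [] = [false] := by simp [stp, hS]
      rw [e1, iter_cons _ _ _ o₂ a₂ b₂ false (fun _ => rfl) (fun _ => rfl) (fun _ => rfl)]
      exact h₂ x ⟨hx, hS⟩ y hy
  | bob c A B S _ _ ih₁ ih₂ =>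
    obtain ⟨o₁, a₁, b₁, out₁, h₁⟩ := ih₁
    obtain ⟨o₂, a₂, b₂, out₂, h₂⟩ := ih₂
    refine ⟨fun t => match t with | [] => false | true :: t => o₁ t | false :: t => o₂ t,
      fun t x => match t with | [] => true | true :: t => a₁ t x | false :: t => a₂ t x,
      fun t y => match t with | [] => decide (y ∈ S) | true :: t => b₁ t y | false :: t => b₂ t y,
      fun t => match t with | [] => true | true :: t => out₁ t | false :: t => out₂ t, ?_⟩
    intro x hx y hy
    rw [Function.iterate_succ_apply]
    by_cases hS : y ∈ S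
    · have e1 : stp (fun t => match t with | [] => false | true :: t => o₁ t | false :: t => o₂ t)
        (fun t x => match t with | [] => true | true :: t => a₁ t x | false :: t => a₂ t x)
        (fun t y => match t with
          | [] => decide (y ∈ S) | true :: t => b₁ t y | false :: t => b₂ t y)
        x y [] = [true] := by simp [stp, hS]
      rw [e1, iter_cons _ _ _ o₁ a₁ b₁ true (fun _ => rfl) (fun _ => rfl) (fun _ => rfl)]
      exact h₁ x hx y ⟨hy, hS⟩
    · have e1 : stp (fun t => match t with | [] => false | true :: t => o₁ t | false :: t => o₂ t)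
        (fun t x => match t with | [] => true | true :: t => a₁ t x | false :: t => a₂ t x)
        (fun t y => match t with
          | [] => decide (y ∈ S) | true :: t => b₁ t y | false :: t => b₂ t y)
        x y [] = [false] := by simp [stp, hS]
      rw [e1, iter_cons _ _ _ o₂ a₂ b₂ false (fun _ => rfl) (fun _ => rfl) (fun _ => rfl)]
      exact h₂ x hx y ⟨hy, hS⟩

lemma Prot.mono {F : X → Y → Bool} {c : ℕ} {A : Set X} {B : Set Y} (h : Prot F c A B)
    {A' : Set X} {B' : Set Y} (hA : A' ⊆ A) (hB : B' ⊆ B) : Prot F c A' B' := by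
  induction h generalizing A' B' with
  | const c A B b h => exact Prot.const c _ _ b fun x hx y hy => h x (hA hx) y (hB hy)
  | alice c A B S _ _ ih₁ ih₂ =>
    exact Prot.alice c _ _ S (ih₁ (Set.inter_subset_inter_left _ hA) hB)
      (ih₂ (Set.diff_subset_diff_left hA) hB)
  | bob c A B S _ _ ih₁ ih₂ =>
    exact Prot.bob c _ _ S (ih₁ hA (Set.inter_subset_inter_left _ hB))
      (ih₂ hA (Set.diff_subset_diff_left hB))

lemma Prot.succ {F : X → Y → Bool} {c : ℕ} {A : Set X} {B : Set Y} (h : Prot F c A B) :
    Prot F (c + 1) A B :=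
  Prot.alice c A B Set.univ (h.mono Set.inter_subset_left le_rfl)
    (h.mono Set.diff_subset le_rfl)

lemma Prot.le {F : X → Y → Bool} {c d : ℕ} (hcd : c ≤ d) {A : Set X} {B : Set Y}
    (h : Prot F c A B) : Prot F d A B := by
  induction hcd with
  | refl => exact h
  | step _ ih => exact ih.succ

/-- Alice sends the value of a function with less than `2 ^ L` values. -/
lemma Prot.alice_index {F : X → Y → Bool} {c : ℕ} (L : ℕ) {A : Set X} {B : Set Y} (g : X → ℕ)
    (s : ℕ) (hg : ∀ x ∈ A, s ≤ g x ∧ g x < s + 2 ^ L)
    (h : ∀ i, Prot F c (A ∩ {x | g x = i}) B) : Prot F (c + L) A B := by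
  induction L generalizing A s with
  | zero =>
    refine (h s).mono ?_ le_rfl
    intro x hx
    have := hg x hx
    exact ⟨hx, by simp only [Set.mem_setOf_eq]; omega⟩
  | succ L ih =>
    have e : c + (L + 1) = (c + L) + 1 := by omega
    rw [e]
    refine Prot.alice _ _ _ {x | g x < s + 2 ^ L} ?_ ?_
    · apply ih s
      · rintro x ⟨hx, hx'⟩
        exact ⟨(hg x hx).1, hx'⟩
      · intro i
        exact (h i).mono (Set.inter_subset_inter_left _ Set.inter_subset_left) le_rfl
    · apply ih (s + 2 ^ L)
      · rintro x ⟨hx, hx'⟩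
        have h1 := (hg x hx).2
        rw [pow_succ] at h1
        simp only [Set.mem_setOf_eq, not_lt] at hx'
        exact ⟨hx', by omega⟩
      · intro i
        exact (h i).mono (Set.inter_subset_inter_left _ Set.diff_subset) le_rfl

lemma Prot.bob_index {F : X → Y → Bool} {c : ℕ} (L : ℕ) {A : Set X} {B : Set Y} (g : Y → ℕ)
    (s : ℕ) (hg : ∀ x ∈ B, s ≤ g x ∧ g x < s + 2 ^ L)
    (h : ∀ i, Prot F c A (B ∩ {x | g x = i})) : Prot F (c + L) A B := by
  induction L generalizing B s with
  | zero =>
    refine (h s).mono le_rfl ?_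
    intro x hx
    have := hg x hx
    exact ⟨hx, by simp only [Set.mem_setOf_eq]; omega⟩
  | succ L ih =>
    have e : c + (L + 1) = (c + L) + 1 := by omega
    rw [e]
    refine Prot.bob _ _ _ {x | g x < s + 2 ^ L} ?_ ?_
    · apply ih s
      · rintro x ⟨hx, hx'⟩
        exact ⟨(hg x hx).1, hx'⟩
      · intro i
        exact (h i).mono le_rfl (Set.inter_subset_inter_left _ Set.inter_subset_left)
    · apply ih (s + 2 ^ L)
      · rintro x ⟨hx, hx'⟩
        have h1 := (hg x hx).2
        rw [pow_succ] at h1
        simp only [Set.mem_setOf_eq, not_lt] at hx'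
        exact ⟨hx', by omega⟩
      · intro i
        exact (h i).mono le_rfl (Set.inter_subset_inter_left _ Set.diff_subset)

/-- all rows equal or all columns equal -/
lemma prot_simple {F : X → Y → Bool} {A : Set X} {B : Set Y}
    (h : (∀ x ∈ A, ∀ x' ∈ A, ∀ y ∈ B, F x y = F x' y) ∨
      (∀ x ∈ A, ∀ y ∈ B, ∀ y' ∈ B, F x y = F x y')) : Prot F 1 A B := by
  rcases h with h | h
  · rcases A.eq_empty_or_nonempty with rfl | ⟨x₀, hx₀⟩
    · exact Prot.const _ _ _ true fun x hx => hx.elim
    · refine Prot.bob 0 A B {y | F x₀ y = true} ?_ ?_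
      · exact Prot.const _ _ _ true fun x hx y hy => (h x hx x₀ hx₀ y hy.1).trans hy.2
      · refine Prot.const _ _ _ false fun x hx y hy => (h x hx x₀ hx₀ y hy.1).trans ?_
        have := hy.2
        simpa using this
  · rcases B.eq_empty_or_nonempty with rfl | ⟨y₀, hy₀⟩
    · exact Prot.const _ _ _ true fun x hx y hy => hy.elim
    · refine Prot.alice 0 A B {x | F x y₀ = true} ?_ ?_
      · exact Prot.const _ _ _ true fun x hx y hy => (h x hx.1 y hy y₀ hy₀).trans hx.2
      · refine Prot.const _ _ _ false fun x hx y hy => (h x hx.1 y hy y₀ hy₀).trans ?_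
        have := hx.2
        simpa using this

end Pool.Agent.Q174.TD
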