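import Pool.Agent.Q174.TD.Alg
import Pool.Agent.Q174.TD.Prot

/-!
# Elimination by polynomials of low degree in the rows and columns
-/

set_option autoImplicit false

namespace Pool.Agent.Q174.TD

variable {X Y : Type*} (K : Type*) [Field K]

/-- `φ` is a polynomial of degree at most `k` in the columns of `F` -/
def Pol (F : X → Y → Bool) (k : ℕ) (φ : X → K) : Prop := φ ∈ W K F k

/-- decision trees on rectangles: at most `m` answers `nonzero`, any number of answers `zero` -/
inductive Dec (F : X → Y → Bool) (k : ℕ) : ℕ → Set X → Set Y → Prop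
  | rows (m : ℕ) (A : Set X) (B : Set Y) (h : ∀ x ∈ A, ∀ x' ∈ A, ∀ y ∈ B, F x y = F x' y) :
      Dec F k m A B
  | cols (m : ℕ) (A : Set X) (B : Set Y) (h : ∀ x ∈ A, ∀ y ∈ B, ∀ y' ∈ B, F x y = F x y') :
      Dec F k m A B
  | row (m : ℕ) (A : Set X) (B : Set Y) (φ : X → K) (hφ : Pol K F k φ) :
      Dec F k m (A ∩ {x | φ x ≠ 0}) B → Dec F k (m + 1) (A ∩ {x | φ x = 0}) B →
      Dec F k (m + 1) A B
  | col (m : ℕ) (A : Set X) (B : Set Y) (φ : Y → K) (hφ : Pol K (fun y x => F x y) k φ) :
      Dec F k m A (B ∩ {y | φ y ≠ 0}) → Dec F k (m + 1) A (B ∩ {y | φ y = 0}) →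
      Dec F k (m + 1) A B

variable {K}

lemma Dec.mono {F : X → Y → Bool} {k m : ℕ} {A : Set X} {B : Set Y} (h : Dec K F k m A B)
    {A' : Set X} {B' : Set Y} (hA : A' ⊆ A) (hB : B' ⊆ B) : Dec K F k m A' B' := by
  induction h generalizing A' B' with
  | rows m A B h => exact Dec.rows m _ _ fun x hx x' hx' y hy => h x (hA hx) x' (hA hx') y (hB hy)
  | cols m A B h => exact Dec.cols m _ _ fun x hx y hy y' hy' => h x (hA hx) y (hB hy) y' (hB hy')
  | row m A B φ hφ _ _ ih₁ ih₂ =>
    exact Dec.row m _ _ φ hφ (ih₁ (Set.inter_subset_inter_left _ hA) hB)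
      (ih₂ (Set.inter_subset_inter_left _ hA) hB)
  | col m A B φ hφ _ _ ih₁ ih₂ =>
    exact Dec.col m _ _ φ hφ (ih₁ hA (Set.inter_subset_inter_left _ hB))
      (ih₂ hA (Set.inter_subset_inter_left _ hB))

/-- one level of the decomposition: few classes of rows and of columns -/
theorem Dec.split [Fintype X] [Fintype Y] {F : X → Y → Bool} {k m : ℕ} {A : Set X} {B : Set Y}
    (h : Dec K F k (m + 1) A B) :
    ∃ (p q : ℕ) (g : X → ℕ) (f : Y → ℕ), p ≤ dimA K F k A ∧ q ≤ dimA K (fun y x => F x y) k B ∧
      (∀ x ∈ A, g x < p) ∧ (∀ y ∈ B, f y < q) ∧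
      ∀ i j, Dec K F k m (A ∩ {x | g x = i}) (B ∩ {y | f y = j}) := by
  classical
  have base : ∀ (A : Set X) (B : Set Y), Dec K F k m A B →
      ∃ (p q : ℕ) (g : X → ℕ) (f : Y → ℕ), p ≤ dimA K F k A ∧
      q ≤ dimA K (fun y x => F x y) k B ∧ (∀ x ∈ A, g x < p) ∧ (∀ y ∈ B, f y < q) ∧
      ∀ i j, Dec K F k m (A ∩ {x | g x = i}) (B ∩ {y | f y = j}) := by
    intro A B h
    refine ⟨min 1 (dimA K F k A), min 1 (dimA K (fun y x => F x y) k B), fun _ => 0, fun _ => 0,
      min_le_right _ _, min_le_right _ _, ?_, ?_, ?_⟩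
    · intro x hx
      have := one_le_dimA K F k ⟨x, hx⟩
      simp only [lt_min_iff]
      omega
    · intro y hy
      have := one_le_dimA K (fun y x => F x y) k ⟨y, hy⟩
      simp only [lt_min_iff]
      omega
    · intro i j
      exact h.mono Set.inter_subset_left Set.inter_subset_left
  generalize hn : m + 1 = n at h
  induction h with
  | rows n A B h => exact base A B (Dec.rows m A B h)
  | cols n A B h => exact base A B (Dec.cols m A B h)
  | row n A B φ hφ h₁ h₂ ih₁ ih₂ =>
    obtain rfl : m = n := by omega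
    obtain ⟨p, q, g, f, hp, hq, hg, hf, hd⟩ := ih₂ rfl
    by_cases hne : ∃ x ∈ A, φ x ≠ 0
    · have hstep := dimA_step K F k (A := A) (A' := A ∩ {x | φ x = 0}) Set.inter_subset_left hφ
        (fun x hx => hx.2) hne
      refine ⟨p + 1, q, fun x => if φ x = 0 then g x else p, f, by omega, hq, ?_, hf, ?_⟩
      · intro x hx
        by_cases h0 : φ x = 0
        · have := hg x ⟨hx, h0⟩
          simp only [h0, if_true]
          omega
        · simp [h0]
      · intro i j
        by_cases hi : i = p
        · refine h₁.mono ?_ Set.inter_subset_left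
          rintro x ⟨hx, hx'⟩
          refine ⟨hx, ?_⟩
          intro h0
          simp only [Set.mem_setOf_eq] at hx'
          rw [if_pos h0] at hx'
          have := hg x ⟨hx, h0⟩
          omega
        · refine (hd i j).mono ?_ le_rfl
          rintro x ⟨hx, hx'⟩
          simp only [Set.mem_setOf_eq] at hx'
          by_cases h0 : φ x = 0
          · rw [if_pos h0] at hx'
            exact ⟨⟨hx, h0⟩, hx'⟩
          · rw [if_neg h0] at hx'
            exact absurd hx'.symm hi
    · push Not at hne
      have e : A ∩ {x | φ x = 0} = A := by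
        ext x
        simp only [Set.mem_inter_iff, Set.mem_setOf_eq, and_iff_left_iff_imp]
        exact hne x
      rw [e] at hp hg hd
      exact ⟨p, q, g, f, hp, hq, hg, hf, hd⟩
  | col n A B φ hφ h₁ h₂ ih₁ ih₂ =>
    obtain rfl : m = n := by omega
    obtain ⟨p, q, g, f, hp, hq, hg, hf, hd⟩ := ih₂ rfl
    by_cases hne : ∃ y ∈ B, φ y ≠ 0
    · have hstep := dimA_step K (fun y x => F x y) k (A := B) (A' := B ∩ {x | φ x = 0})
        Set.inter_subset_left hφ (fun x hx => hx.2) hne
      refine ⟨p, q + 1, g, fun y => if φ y = 0 then f y else q, hp, by omega, hg, ?_, ?_⟩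
      · intro y hy
        by_cases h0 : φ y = 0
        · have := hf y ⟨hy, h0⟩
          simp only [h0, if_true]
          omega
        · simp [h0]
      · intro i j
        by_cases hj : j = q
        · refine h₁.mono Set.inter_subset_left ?_
          rintro y ⟨hy, hy'⟩
          refine ⟨hy, ?_⟩
          intro h0
          simp only [Set.mem_setOf_eq] at hy'
          rw [if_pos h0] at hy'
          have := hf y ⟨hy, h0⟩
          omega
        · refine (hd i j).mono le_rfl ?_
          rintro y ⟨hy, hy'⟩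
          simp only [Set.mem_setOf_eq] at hy'
          by_cases h0 : φ y = 0
          · rw [if_pos h0] at hy'
            exact ⟨⟨hy, h0⟩, hy'⟩
          · rw [if_neg h0] at hy'
            exact absurd hy'.symm hj
    · push Not at hne
      have e : B ∩ {x | φ x = 0} = B := by
        ext x
        simp only [Set.mem_inter_iff, Set.mem_setOf_eq, and_iff_left_iff_imp]
        exact hne x
      rw [e] at hq hf hd
      exact ⟨p, q, g, f, hp, hq, hg, hf, hd⟩

/-- the rank over `K` of the 0/1 matrix of `F` -/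
noncomputable def rk (K : Type*) [Field K] [Fintype Y] (F : X → Y → Bool) : ℕ :=
  (Matrix.of fun (x : X) (y : Y) => if F x y then (1 : K) else 0).rank

lemma rk_swap [Fintype X] [Fintype Y] (F : X → Y → Bool) : rk K (fun y x => F x y) = rk K F := by
  unfold rk
  rw [← Matrix.rank_transpose]
  rfl

theorem Dec.prot [Fintype X] [Fintype Y] {F : X → Y → Bool} {k m : ℕ} {A : Set X} {B : Set Y}
    (h : Dec K F k m A B) : Prot F (2 * m * Nat.clog 2 (Phi k (rk K F)) + 1) A B := by
  induction m generalizing A B with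
  | zero =>
    have hs : (∀ x ∈ A, ∀ x' ∈ A, ∀ y ∈ B, F x y = F x' y) ∨
        (∀ x ∈ A, ∀ y ∈ B, ∀ y' ∈ B, F x y = F x y') := by
      cases h with
      | rows _ _ _ h => exact Or.inl h
      | cols _ _ _ h => exact Or.inr h
    simpa using prot_simple hs
  | succ m ih =>
    obtain ⟨p, q, g, f, hp, hq, hg, hf, hd⟩ := h.split
    set L := Nat.clog 2 (Phi k (rk K F)) with hL
    have hpow : Phi k (rk K F) ≤ 2 ^ L := Nat.le_pow_clog (by norm_num) _
    have hp' : p ≤ 2 ^ L := (hp.trans (dimA_le K F k A)).trans hpow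
    have hq' : q ≤ 2 ^ L := by
      refine (hq.trans (dimA_le K (fun y x => F x y) k B)).trans ?_
      have := rk_swap (K := K) F
      unfold rk at this
      rw [this]
      exact hpow
    have e : 2 * (m + 1) * L + 1 = (2 * m * L + 1 + L) + L := by ring
    rw [e]
    refine Prot.alice_index L g 0 (fun x hx => ⟨Nat.zero_le _, ?_⟩) fun i => ?_
    · have := hg x hx
      omega
    · refine Prot.bob_index L f 0 (fun y hy => ⟨Nat.zero_le _, ?_⟩) fun j => ?_
      · have := hf y hy
        omega
      · exact ih (hd i j)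

end Pool.Agent.Q174.TD
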