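import Pool.Agent.Q174.TD.Cor

/-!
# Chromatic number and rank: elimination by polynomials of low degree
-/

set_option autoImplicit false

namespace Pool.Agent.Q174.TD

open Finset

section prod

variable {X Y : Type*} (K : Type*) [Field K] (F : X → Y → Bool)

lemma mon_mul_mon [DecidableEq Y] (T T' : Finset Y) :
    mon K F T * mon K F T' = mon K F (T ∪ T') := by
  induction T' using Finset.induction_on with
  | empty => rw [mon_empty, mul_one, union_empty]
  | insert y T' hy ih =>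
    rw [← mon_mul_col, ← mul_assoc, ih, mon_mul_col, union_insert]

lemma mul_mem_W {k l : ℕ} {f g : X → K} (hf : f ∈ W K F k) (hg : g ∈ W K F l) :
    f * g ∈ W K F (k + l) := by
  classical
  induction hf using Submodule.span_induction with
  | mem f hf =>
    obtain ⟨T, hT, rfl⟩ := hf
    induction hg using Submodule.span_induction with
    | mem g hg =>
      obtain ⟨T', hT', rfl⟩ := hg
      rw [mon_mul_mon]
      exact mon_mem_W K F ((card_union_le _ _).trans (by omega))
    | zero => rw [mul_zero]; exact zero_mem _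
    | add g h _ _ hg hh => rw [mul_add]; exact add_mem hg hh
    | smul c g _ hg => rw [mul_smul_comm]; exact Submodule.smul_mem _ _ hg
  | zero => rw [zero_mul]; exact zero_mem _
  | add f h _ _ hf hh => rw [add_mul]; exact add_mem hf hh
  | smul c f _ hf => rw [smul_mul_assoc]; exact Submodule.smul_mem _ _ hf

end prod

variable {V : Type*} (K : Type*) [Field K]

/-- the adjacency matrix as a Boolean function -/
noncomputable def adj (G : SimpleGraph V) : V → V → Bool := by
  classical exact fun u v => decide (G.Adj u v)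

lemma adj_iff (G : SimpleGraph V) (u v : V) : adj G u v = true ↔ G.Adj u v := by
  simp [adj]

/-- the vertices in `A` can be coloured with `c` colours -/
def ColOn (G : SimpleGraph V) (A : Set V) (c : ℕ) : Prop :=
  ∃ f : V → ℕ, (∀ v ∈ A, f v < c) ∧ ∀ u ∈ A, ∀ v ∈ A, G.Adj u v → f u ≠ f v

lemma colOn_of_induce {G : SimpleGraph V} {A : Set V} {c : ℕ} (h : (G.induce A).Colorable c) :
    ColOn G A c := by
  classical
  obtain ⟨C⟩ := h
  refine ⟨fun v => if hv : v ∈ A then (C ⟨v, hv⟩ : Fin c) else 0, ?_, ?_⟩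
  · intro v hv
    simp only [hv, dif_pos]
    exact (C ⟨v, hv⟩).2
  · intro u hu v hv huv
    simp only [hu, hv, dif_pos]
    intro h
    have h1 : (G.induce A).Adj ⟨u, hu⟩ ⟨v, hv⟩ := huv
    exact C.valid h1 (Fin.ext h)

lemma colorable_of_colOn {G : SimpleGraph V} {c : ℕ} (h : ColOn G Set.univ c) :
    G.Colorable c := by
  obtain ⟨f, h1, h2⟩ := h
  exact ⟨SimpleGraph.Coloring.mk (fun v => (⟨f v, h1 v (Set.mem_univ _)⟩ : Fin c))
    (fun {u v} huv h => h2 u (Set.mem_univ _) v (Set.mem_univ _) huv (by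
      have := congrArg Fin.val h
      exact this))⟩

/-- **Colouring by elimination.** -/
theorem colOn_le [Fintype V] (G : SimpleGraph V) (k s : ℕ)
    (h : ∀ A : Set V, A.Nonempty → ∃ φ : V → K, Pol K (adj G) k φ ∧ (∃ v ∈ A, φ v ≠ 0) ∧
      ColOn G (A ∩ {v | φ v ≠ 0}) s) (A : Set V) : ColOn G A (s * dimA K (adj G) k A) := by
  classical
  generalize hn : A.ncard = n
  induction n using Nat.strong_induction_on generalizing A with
  | _ n ih =>
    rcases A.eq_empty_or_nonempty with rfl | hA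
    · exact ⟨fun _ => 0, fun v hv => hv.elim, fun u hu => hu.elim⟩
    obtain ⟨φ, hφ, ⟨v₀, hv₀, h0⟩, f₁, hf₁, hf₁'⟩ := h A hA
    have hlt : (A ∩ {v | φ v = 0}).ncard < A.ncard := by
      apply Set.ncard_lt_ncard _ (Set.toFinite _)
      exact ⟨Set.inter_subset_left, fun hsub => h0 (hsub hv₀).2⟩
    obtain ⟨f₂, hf₂, hf₂'⟩ := ih _ (by omega) (A ∩ {v | φ v = 0}) rfl
    have hstep := dimA_step K (adj G) k (A := A) (A' := A ∩ {x | φ x = 0})
      Set.inter_subset_left hφ (fun x hx => hx.2) ⟨v₀, hv₀, h0⟩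
    set d := dimA K (adj G) k (A ∩ {x | φ x = 0})
    have hle : s * d + s ≤ s * dimA K (adj G) k A := by
      calc s * d + s = s * (d + 1) := by ring
        _ ≤ _ := Nat.mul_le_mul_left _ hstep
    refine ⟨fun v => if φ v = 0 then f₂ v else s * d + f₁ v, ?_, ?_⟩
    · intro v hv
      by_cases hφv : φ v = 0
      · simp only [hφv, if_true]
        have := hf₂ v ⟨hv, hφv⟩
        omega
      · simp only [hφv, if_false]
        have := hf₁ v ⟨hv, hφv⟩
        omega
    · intro u hu v hv huv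
      by_cases hφu : φ u = 0 <;> by_cases hφv : φ v = 0
      · simp only [hφu, hφv, if_true]
        exact hf₂' u ⟨hu, hφu⟩ v ⟨hv, hφv⟩ huv
      · simp only [hφu, hφv, if_true, if_false]
        have := hf₂ u ⟨hu, hφu⟩
        omega
      · simp only [hφu, hφv, if_true, if_false]
        have := hf₂ v ⟨hv, hφv⟩
        omega
      · simp only [hφu, hφv, if_false]
        have := hf₁' u ⟨hu, hφu⟩ v ⟨hv, hφv⟩ huv
        omega

theorem colorable_le [Fintype V] (G : SimpleGraph V) (k s : ℕ)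
    (h : ∀ A : Set V, A.Nonempty → ∃ φ : V → K, Pol K (adj G) k φ ∧ (∃ v ∈ A, φ v ≠ 0) ∧
      ColOn G (A ∩ {v | φ v ≠ 0}) s) : G.Colorable (s * Phi k (rk K (adj G))) := by
  refine (colorable_of_colOn (colOn_le K G k s h Set.univ)).mono ?_
  exact Nat.mul_le_mul_left _ (dimA_le K (adj G) k Set.univ)

/-- types over at most `k` vertices -/
theorem colorable_of_types [Fintype V] (G : SimpleGraph V) (k s : ℕ)
    (h : ∀ A : Set V, A.Nonempty → ∃ v ∈ A, ∃ T : Finset V, T.card ≤ k ∧
      ColOn G {u | u ∈ A ∧ ∀ w ∈ T, (G.Adj u w ↔ G.Adj v w)} s) :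
    G.Colorable (s * Phi k (rk K (adj G))) := by
  classical
  apply colorable_le K G k s
  intro A hA
  obtain ⟨v, hv, T, hT, hc⟩ := h A hA
  refine ⟨lit K (adj G) T (adj G v), W_mono K _ hT (lit_mem_W K _ T _), ⟨v, hv, ?_⟩, ?_⟩
  · simp [lit]
  · have e : A ∩ {u | lit K (adj G) T (adj G v) u ≠ 0} =
        {u | u ∈ A ∧ ∀ w ∈ T, (G.Adj u w ↔ G.Adj v w)} := by
      ext u
      simp only [Set.mem_inter_iff, Set.mem_setOf_eq, lit, ne_eq, ite_eq_right_iff, one_ne_zero,
        imp_false, not_not]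
      refine and_congr_right fun _ => forall_congr' fun w => imp_congr_right fun _ => ?_
      rw [← adj_iff, ← adj_iff]
      cases adj G u w <;> cases adj G v w <;> simp
    rw [e]
    exact hc

/-- the rank of the subgraph induced on `A` -/
noncomputable def rkInd [Fintype V] (G : SimpleGraph V) (A : Set V) : ℕ := rkOn K (adj G) A A

lemma indep_of_rk_le_one [Fintype V] (G : SimpleGraph V) (A : Set V) (h : rkInd K G A ≤ 1) :
    ∀ u ∈ A, ∀ v ∈ A, ¬ G.Adj u v := by
  intro u hu v hv huv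
  have h1 := minor K (adj G) h hu hv hv hu ((adj_iff G u v).mpr huv)
  have h2 : adj G v u = true := (adj_iff G v u).mpr huv.symm
  have h3 : adj G u u = false := by
    cases h4 : adj G u u
    · rfl
    · exact absurd ((adj_iff G u u).mp h4) (G.loopless.irrefl u)
  rw [h2, h3] at h1
  simp at h1

theorem halving_poly [Fintype V] (G : SimpleGraph V) (k : ℕ)
    (h : ∀ A : Set V, 2 ≤ rkInd K G A → ∃ φ : V → K, Pol K (adj G) k φ ∧ (∃ v ∈ A, φ v ≠ 0) ∧
      2 * rkInd K G (A ∩ {v | φ v ≠ 0}) ≤ rkInd K G A) (n : ℕ) (A : Set V) (hA : A.Nonempty)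
    (hn : rkInd K G A ≤ 2 ^ n) :
    ∃ φ : V → K, Pol K (adj G) (k * n) φ ∧ (∃ v ∈ A, φ v ≠ 0) ∧
      ColOn G (A ∩ {v | φ v ≠ 0}) 1 := by
  classical
  induction n generalizing A with
  | zero =>
    obtain ⟨v, hv⟩ := hA
    refine ⟨1, one_mem_W K _ _, ⟨v, hv, by simp⟩, fun _ => 0, fun _ _ => by simp, ?_⟩
    intro u hu w hw huw
    exact absurd huw (indep_of_rk_le_one K G A (by simpa using hn) u hu.1 w hw.1)
  | succ n ih =>
    by_cases hle : rkInd K G A ≤ 2 ^ n
    · obtain ⟨φ, h1, h2, h3⟩ := ih A hA hle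
      exact ⟨φ, W_mono K _ (Nat.mul_le_mul_left _ (Nat.le_succ _)) h1, h2, h3⟩
    · have h2 : 2 ≤ rkInd K G A := by
        have : 1 ≤ 2 ^ n := Nat.one_le_two_pow
        omega
      obtain ⟨φ, hφ, ⟨v, hv, h0⟩, hr⟩ := h A h2
      obtain ⟨ψ, hψ, ⟨w, hw, hw0⟩, f, hf, hf'⟩ := ih (A ∩ {v | φ v ≠ 0}) ⟨v, hv, h0⟩ (by
        rw [pow_succ] at hn
        omega)
      refine ⟨φ * ψ, ?_, ⟨w, hw.1, mul_ne_zero hw.2 hw0⟩, ?_⟩
      · have := mul_mem_W K (adj G) hφ hψ
        have e : k * (n + 1) = k + k * n := by ring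
        rw [e]
        exact this
      · refine ⟨f, ?_, ?_⟩
        · rintro u ⟨hu, hu'⟩
          exact hf u ⟨⟨hu, left_ne_zero_of_mul hu'⟩, right_ne_zero_of_mul hu'⟩
        · rintro u ⟨hu, hu'⟩ w ⟨hw, hw'⟩ huw
          exact hf' u ⟨⟨hu, left_ne_zero_of_mul hu'⟩, right_ne_zero_of_mul hu'⟩ w
            ⟨⟨hw, left_ne_zero_of_mul hw'⟩, right_ne_zero_of_mul hw'⟩ huw

theorem colorable_of_halving [Fintype V] (G : SimpleGraph V) (k : ℕ)
    (h : ∀ A : Set V, 2 ≤ rkInd K G A → ∃ φ : V → K, Pol K (adj G) k φ ∧ (∃ v ∈ A, φ v ≠ 0) ∧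
      2 * rkInd K G (A ∩ {v | φ v ≠ 0}) ≤ rkInd K G A) :
    G.Colorable (Phi (k * Nat.clog 2 (rk K (adj G))) (rk K (adj G))) := by
  have h1 := colorable_le K G (k * Nat.clog 2 (rk K (adj G))) 1 fun A hA =>
    halving_poly K G k h _ A hA ((rkOn_mono K (adj G) (Set.subset_univ A)
      (Set.subset_univ A)).trans (by
        rw [rkOn_univ]
        exact Nat.le_pow_clog (by norm_num) _))
  simpa using h1

end Pool.Agent.Q174.TD
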